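import Pool.Agent.W_MP_68f289_gt.Extra

/-!
Simplicity of the group of Hamiltonian homeomorphisms of the ball is equivalent to a fragmentation
property for the balls of two radii `s < r`.
-/

open Pool.Agent.W_MP_68f289_gt

namespace Pool.Agent.Results.MP_68f289_gt.BallCriterion

/-- The group `HamBar n` of compactly supported Hamiltonian homeomorphisms of the open unit ball `B`
of `ℝ^{2n}`, `n ≥ 1`, is simple if and only if there are `0 < s < r < 1` such that `HamBar n` is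
generated by the set `Frg n s` of conjugates of Hamiltonian homeomorphisms of the ball `s B`, and
such that, for some `m`, all Hamiltonian diffeomorphisms of the ball `r B` are products of `m`
elements of `Frg n s`. If it is simple, then for some `r` the second property holds for all
`s < r`, and for all Hamiltonian homeomorphisms of `r B`. -/
theorem result (n : ℕ) (hn : 1 ≤ n) :
    (IsSimpleGroup (G n) ↔ ∃ s r : ℝ, 0 < s ∧ s < r ∧ r < 1 ∧
      Subgroup.closure (Frg n s) = ⊤ ∧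
      ∃ m : ℕ, ∀ f g : G n, IsHam n (f : E n ≃ₜ E n) →
        (∀ x : E n, (g : E n ≃ₜ E n) (r • x) = r • (f : E n ≃ₜ E n) x) →
        ∃ l : List (G n), l.length = m ∧ (∀ a ∈ l, a ∈ Frg n s) ∧ l.prod = g) ∧
    (IsSimpleGroup (G n) → ∃ r : ℝ, 0 < r ∧ r < 1 ∧ ∀ s : ℝ, 0 < s → s < r →
      ∃ m : ℕ, ∀ f g : G n, (∀ x : E n, (g : E n ≃ₜ E n) (r • x) = r • (f : E n ≃ₜ E n) x) →
        ∃ l : List (G n), l.length = m ∧ (∀ a ∈ l, a ∈ Frg n s) ∧ l.prod = g) := by
  have key : IsSimpleGroup (G n) → ∃ r : ℝ, 0 < r ∧ r < 1 ∧ ∀ s : ℝ, 0 < s → s < r →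
      ∃ m : ℕ, ∀ f g : G n, (∀ x : E n, (g : E n ≃ₜ E n) (r • x) = r • (f : E n ≃ₜ E n) x) →
        ∃ l : List (G n), l.length = m ∧ (∀ a ∈ l, a ∈ Frg n s) ∧ l.prod = g := by
    intro h
    obtain ⟨_, r, h0, h1, hr⟩ := bdd_of_simple hn h
    refine ⟨r, h0, h1, fun s hs0 hsr => ?_⟩
    obtain ⟨m, hm⟩ := hr s hs0 hsr
    refine ⟨m, fun f g hfg => ?_⟩
    rw [(eq_sc h0 h1.le).1 hfg, Frg_eq hs0 (hsr.trans h1).le]
    exact hm f
  refine ⟨⟨fun h => ?_, ?_⟩, key⟩
  · obtain ⟨r, h0, h1, hr⟩ := key h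
    obtain ⟨hF, _⟩ := bdd_of_simple hn h
    obtain ⟨m, hm⟩ := hr (r / 2) (by positivity) (by linarith)
    refine ⟨r / 2, r, by positivity, by linarith, h1, ?_, m, fun f g _ hfg => hm f g hfg⟩
    rw [Frg_eq (half_pos h0) (by linarith)]
    exact hF _ _ (by linarith)
  · rintro ⟨s, r, hs0, hsr, hr1, hcl, m, hm⟩
    have hs1 : s < 1 := hsr.trans hr1
    rw [Frg_eq hs0 hs1.le] at hcl
    have hF := fragBalls_of_one hs0 hs1 hcl
    obtain ⟨m', hm'⟩ := bdd_of_smooth hF hs0 hsr hr1 (m := m) (fun f hf => by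
      have := hm f _ hf ((eq_sc (hs0.trans hsr) hr1.le).2 rfl)
      rwa [Frg_eq hs0 hs1.le] at this)
    exact simple_of_bdd hn hF hs0 hsr hr1 hm'

end Pool.Agent.Results.MP_68f289_gt.BallCriterion
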