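import Pool.Agent.W_MP_68f289_gt.Extra

/-!
Normal subgroups of countable index and bounded widths near the identity.
-/

open Pool.Agent.W_MP_68f289_gt

namespace Pool.Agent.Results.MP_68f289_gt.BoundedWidth

/-- Let `G = HamBar n` be the group of compactly supported Hamiltonian homeomorphisms of the open
unit ball of `ℝ^{2n}`, and call a set `S` boundedly generating (`BddGen n S`) if for every `R < 1`
there are `N` and `ε > 0` such that every element of `G` which moves all points by less than `ε`
and is a uniform limit of Hamiltonian diffeomorphisms supported in the closed ball of radius `R` is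
a product of `N` elements of `S`. If the commutator subgroup has countable index, it is `G`, and the
set of commutators is boundedly generating. If `T` is a countable set whose normal closure has
countable index, then this normal closure is `G`, and the set of all conjugates of elements of `T`
and of their inverses is boundedly generating. For `n ≥ 1`, `G` is simple if and only if the set of
conjugates of `h` and `h⁻¹` is boundedly generating for every `h ≠ 1`. -/
theorem result (n : ℕ) :
    (Countable (G n ⧸ commutator (G n)) →
      commutator (G n) = ⊤ ∧ BddGen n (Com n)) ∧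
    (∀ T : Set (G n), T.Countable → Countable (G n ⧸ Subgroup.normalClosure T) →
      Subgroup.normalClosure T = ⊤ ∧ BddGen n (Conj T)) ∧
    (1 ≤ n → (IsSimpleGroup (G n) ↔ ∀ h : G n, h ≠ 1 → BddGen n (Conj {h}))) := by
  refine ⟨fun h => ?_, fun T hT h => ?_, fun hn => ⟨fun h g hg => ?_, fun h => ?_⟩⟩
  · have h1 := bdd_Com h
    exact ⟨by rw [← closure_Com]; exact h1.top, h1⟩
  · have h1 := bdd_Conj hT h
    exact ⟨by rw [← closure_Conj]; exact h1.top, h1⟩
  · apply bdd_Conj (Set.countable_singleton g)
    have hcl : Subgroup.normalClosure {g} = ⊤ := by
      refine (h.eq_bot_or_eq_top_of_normal _ Subgroup.normalClosure_normal).resolve_left ?_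
      intro hbot
      have h2 : g ∈ Subgroup.normalClosure {g} := Subgroup.subset_normalClosure rfl
      rw [hbot, Subgroup.mem_bot] at h2
      exact hg h2
    rw [hcl]
    exact countable_top
  · obtain ⟨g0, hg0⟩ := exists_ne_one hn
    have : Nontrivial (G n) := ⟨g0, 1, hg0⟩
    refine ⟨fun N hN => ?_⟩
    by_cases hb : N = ⊥
    · exact Or.inl hb
    · right
      obtain ⟨⟨g, hg⟩, hg1⟩ := Subgroup.ne_bot_iff_exists_ne_one.1 hb
      have hg1' : g ≠ 1 := fun h => hg1 (Subtype.ext h)
      rw [eq_top_iff, ← (h g hg1').top, closure_Conj]
      exact Subgroup.normalClosure_le_normal (Set.singleton_subset_iff.2 hg)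

end Pool.Agent.Results.MP_68f289_gt.BoundedWidth
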