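import Pool.Agent.W_MP_68f289_gt.Extra

/-!
Nontrivial normal subgroups of the groups of Hamiltonian homeomorphisms and hameomorphisms of the
ball are uniformly dense.
-/

open Pool.Agent.W_MP_68f289_gt

namespace Pool.Agent.Results.MP_68f289_gt.DenseNormal

/-- Every nontrivial normal subgroup of the group `HamBar n` of compactly supported Hamiltonian
homeomorphisms of the open unit ball of `ℝ^{2n}`, `n ≥ 1`, is dense in it for uniform convergence,
and the same holds for the group `Hameo n` of hameomorphisms. -/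
theorem result (n : ℕ) (hn : 1 ≤ n) :
    (∀ N : Subgroup (G n), N.Normal → N ≠ ⊥ → ∀ (g : G n) (ε : ℝ), 0 < ε →
      ∃ h ∈ N, ∀ x : E n, dist ((h : E n ≃ₜ E n) x) ((g : E n ≃ₜ E n) x) < ε) ∧
    (∀ N : Subgroup (Hm n), N.Normal → N ≠ ⊥ → ∀ (g : Hm n) (ε : ℝ), 0 < ε →
      ∃ h ∈ N, ∀ x : E n, dist ((h : E n ≃ₜ E n) x) ((g : E n ≃ₜ E n) x) < ε) :=
  ⟨fun _ hN hN1 g _ hε => dense_normal hn big_HamBar le_rfl hN hN1 g hε,
    fun _ hN hN1 g _ hε => dense_normal hn big_Hameo Hameo_le hN hN1 g hε⟩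

end Pool.Agent.Results.MP_68f289_gt.DenseNormal
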