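import Pool.Agent.W_68f289_h58.Sw

/-!
The groups of Hamiltonian homeomorphisms and of hameomorphisms of the ball are simple, or they have
at least continuum many normal subgroups and are not the normal closure of a finite set.
-/

open Pool.Agent.W_MP_68f289_gt

namespace Pool.Agent.W_MP_68f289_gt.Old.NormalDichotomy1

/-- Let `n ≥ 1`, and let `L` be the group `HamBar n` of compactly supported Hamiltonian homeomorphisms
of the open unit ball of `ℝ^{2n}`, or the group `Hameo n` generated by the Oh-Müller hameomorphisms
of the ball. The following are equivalent: `L` is simple; `L` is the normal closure of a finite set;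
`L` is not the union of an increasing sequence of proper normal subgroups; `L` has fewer normal
subgroups than the continuum. -/
theorem result (n : ℕ) (hn : 1 ≤ n) (L : Subgroup (E n ≃ₜ E n))
    (hL : L = HamBar n ∨ L = Hameo n) :
    [IsSimpleGroup (Ty L),
      ∃ T : Set (Ty L), T.Finite ∧ Subgroup.normalClosure T = ⊤,
      ¬ ∃ N : ℕ → Subgroup (Ty L), Monotone N ∧ (∀ k, (N k).Normal ∧ N k ≠ ⊤) ∧
        ∀ g, ∃ k, g ∈ N k,
      Cardinal.mk {N : Subgroup (Ty L) // N.Normal} < Cardinal.continuum].TFAE := by
  rcases hL with rfl | rfl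
  · exact Pool.Agent.W_68f289_h58.simple_tfae hn (Pool.Agent.W_68f289_h58.gd_HamBar hn)
  · exact Pool.Agent.W_68f289_h58.simple_tfae hn (Pool.Agent.W_68f289_h58.gd_Hameo hn)

end Pool.Agent.W_MP_68f289_gt.Old.NormalDichotomy1
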