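import Pool.Agent.W_68f289_h94.Main
import Pool.Agent.W_68f289_h94.IpHam58
import Pool.Agent.W_68f289_h94.IpHameo58

/-!
The normal subgroups and the abelianizations of the groups of Hamiltonian homeomorphisms and of
hameomorphisms of the ball.
-/

open Pool.Agent.W_MP_68f289_gt

namespace Pool.Agent.Results.MP_68f289_gt.NormalDichotomy

/-- Let `n ≥ 1`, and let `L` be the group `HamBar n` of compactly supported Hamiltonian homeomorphisms
of the open unit ball of `ℝ^{2n}`, or the group `Hameo n` generated by the Oh-Müller hameomorphisms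
of the ball. For `g` in `L` and `0 < r < 1` the copy `g_r` of `g` is the element of `L` with
`g_r (r x) = r g (x)`.

* The following are equivalent: `L` is simple; `L` is the normal closure of a finite set; `L` is not
  the union of an increasing sequence of proper normal subgroups; `L` has fewer normal subgroups than
  the continuum; `L` is perfect and, for one `r < 1`, the normal closure of the set of all `g_r`.
* The following are equivalent: `L` is perfect; `L` is generated by its commutators and a finite set;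
  `L` is not the union of an increasing sequence of proper subgroups which contain the commutators;
  fewer subgroups than the continuum contain the commutators.
* Every nontrivial subgroup which is normalised by the commutator subgroup contains `g_r` for all `g`
  in the commutator subgroup and all `r < 1/2`.
* If fewer than `2 ^ 𝔠` subgroups contain the commutators, then for some `r` all `g_r` are
  fragmentable: for every `ε > 0` they are products of elements supported in balls of radius `ε`. -/
theorem result (n : ℕ) (hn : 1 ≤ n) (L : Subgroup (E n ≃ₜ E n))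
    (hL : L = HamBar n ∨ L = Hameo n) :
    [IsSimpleGroup (Ty L),
      ∃ T : Set (Ty L), T.Finite ∧ Subgroup.normalClosure T = ⊤,
      ¬ ∃ N : ℕ → Subgroup (Ty L), Monotone N ∧ (∀ k, (N k).Normal ∧ N k ≠ ⊤) ∧
        ∀ g, ∃ k, g ∈ N k,
      Cardinal.mk {N : Subgroup (Ty L) // N.Normal} < Cardinal.continuum,
      commutator (Ty L) = ⊤ ∧ ∃ r : ℝ, 0 < r ∧ r < 1 ∧
        Subgroup.normalClosure {u : Ty L | ∃ g : Ty L,
          ∀ x : E n, (u : E n ≃ₜ E n) (r • x) = r • (g : E n ≃ₜ E n) x} = ⊤].TFAE ∧
    [commutator (Ty L) = ⊤,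
      ∃ T : Set (Ty L), T.Finite ∧ Subgroup.closure T ⊔ commutator (Ty L) = ⊤,
      ¬ ∃ B : ℕ → Subgroup (Ty L), Monotone B ∧ (∀ k, commutator (Ty L) ≤ B k ∧ B k ≠ ⊤) ∧
        ∀ g, ∃ k, g ∈ B k,
      Cardinal.mk {B : Subgroup (Ty L) // commutator (Ty L) ≤ B} < Cardinal.continuum].TFAE ∧
    (∀ N : Subgroup (Ty L), N ≠ ⊥ → (∀ c ∈ commutator (Ty L), ∀ l ∈ N, c * l * c⁻¹ ∈ N) →
      ∀ r : ℝ, 0 < r → r < 1 / 2 → ∀ g ∈ commutator (Ty L), ∃ u ∈ N,
        ∀ x : E n, (u : E n ≃ₜ E n) (r • x) = r • (g : E n ≃ₜ E n) x) ∧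
    (Cardinal.mk {B : Subgroup (Ty L) // commutator (Ty L) ≤ B} < 2 ^ Cardinal.continuum →
      ∃ r : ℝ, 0 < r ∧ r < 1 ∧ ∀ g : Ty L, ∃ u ∈ FrL L,
        ∀ x : E n, (u : E n ≃ₜ E n) (r • x) = r • (g : E n ≃ₜ E n) x) := by
  rcases hL with rfl | rfl
  · obtain ⟨I⟩ := Pool.Agent.W_68f289_h94.ipHam58 hn
    exact Pool.Agent.W_68f289_h94.main hn _ I
  · obtain ⟨I⟩ := Pool.Agent.W_68f289_h94.ipHameo58 hn
    exact Pool.Agent.W_68f289_h94.main hn _ I

end Pool.Agent.Results.MP_68f289_gt.NormalDichotomy
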